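import Pool.Agent.Helper44_Art.Stmt2

set_option autoImplicit false
set_option linter.unusedSectionVars false

/-!
# Module GEN: existence of a generic representation over a finite field
-/

namespace Art
namespace H4

open Polynomial

section

variable {S : Type} [Fintype S] [DecidableEq S] (M : CoxeterMatrix S)

/-- A positive common multiple of the finite labels. -/
def KK : ℕ := ∏ s : S, ∏ t : S, (if M.M s t = 0 then 1 else M.M s t)

theorem KK_pos : 0 < KK M := by
  unfold KK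
  refine Finset.prod_pos (fun s _ => Finset.prod_pos (fun t _ => ?_))
  split_ifs with h
  · norm_num
  · omega

theorem dvd_KK (s t : S) (h : M.M s t ≠ 0) : M.M s t ∣ KK M := by
  unfold KK
  have h1 : (if M.M s t = 0 then 1 else M.M s t) ∣
      ∏ t : S, (if M.M s t = 0 then 1 else M.M s t) :=
    Finset.dvd_prod_of_mem (fun t => if M.M s t = 0 then 1 else M.M s t) (Finset.mem_univ t)
  have h2 : (∏ t : S, (if M.M s t = 0 then 1 else M.M s t)) ∣
      ∏ s : S, ∏ t : S, (if M.M s t = 0 then 1 else M.M s t) :=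
    Finset.dvd_prod_of_mem (fun s => ∏ t : S, (if M.M s t = 0 then 1 else M.M s t))
      (Finset.mem_univ s)
  rw [if_neg h] at h1
  exact h1.trans h2

/-- The exponent attached to a pair. -/
noncomputable def ex (s t : S) : ℕ :=
  2 ^ ((Fintype.equivFin S s : Fin (Fintype.card S)) : ℕ) +
    2 ^ ((Fintype.equivFin S t : Fin (Fintype.card S)) : ℕ)

theorem ex_symm (s t : S) : ex s t = ex t s := by
  unfold ex; rw [add_comm]

theorem ex_pos (s t : S) : 0 < ex s t := by
  unfold ex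
  positivity

theorem ex_le (s t : S) : ex s t ≤ 2 ^ (Fintype.card S + 1) := by
  unfold ex
  have h1 : 2 ^ ((Fintype.equivFin S s : Fin (Fintype.card S)) : ℕ) ≤ 2 ^ (Fintype.card S) :=
    Nat.pow_le_pow_right (by norm_num) (Fintype.equivFin S s).2.le
  have h2 : 2 ^ ((Fintype.equivFin S t : Fin (Fintype.card S)) : ℕ) ≤ 2 ^ (Fintype.card S) :=
    Nat.pow_le_pow_right (by norm_num) (Fintype.equivFin S t).2.le
  rw [pow_succ]
  omega

theorem ex_inj (s t a b : S) (hst : s ≠ t) (hab : a ≠ b) (h : ex s t = ex a b) :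
    (s = a ∧ t = b) ∨ (s = b ∧ t = a) := by
  classical
  have key : ∀ u v : S, u ≠ v → ex u v =
      ∑ i ∈ ({((Fintype.equivFin S u : Fin (Fintype.card S)) : ℕ),
        ((Fintype.equivFin S v : Fin (Fintype.card S)) : ℕ)} : Finset ℕ), 2 ^ i := by
    intro u v huv
    rw [Finset.sum_pair]
    · rfl
    · intro h
      exact huv ((Fintype.equivFin S).injective (Fin.ext h))
  rw [key s t hst, key a b hab] at h
  have h2 := Finset.geomSum_injective (le_refl 2) h
  have hs : ((Fintype.equivFin S s : Fin (Fintype.card S)) : ℕ) ∈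
      ({((Fintype.equivFin S a : Fin (Fintype.card S)) : ℕ),
        ((Fintype.equivFin S b : Fin (Fintype.card S)) : ℕ)} : Finset ℕ) := by
    rw [← h2]; simp
  have ht : ((Fintype.equivFin S t : Fin (Fintype.card S)) : ℕ) ∈
      ({((Fintype.equivFin S a : Fin (Fintype.card S)) : ℕ),
        ((Fintype.equivFin S b : Fin (Fintype.card S)) : ℕ)} : Finset ℕ) := by
    rw [← h2]; simp
  have inj : ∀ u v : S, ((Fintype.equivFin S u : Fin (Fintype.card S)) : ℕ) =
      ((Fintype.equivFin S v : Fin (Fintype.card S)) : ℕ) → u = v := by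
    intro u v h
    exact (Fintype.equivFin S).injective (Fin.ext h)
  rw [Finset.mem_insert, Finset.mem_singleton] at hs ht
  rcases hs with hs | hs <;> rcases ht with ht | ht
  · exact absurd ((inj _ _ hs).trans (inj _ _ ht).symm) hst
  · exact Or.inl ⟨inj _ _ hs, inj _ _ ht⟩
  · exact Or.inr ⟨inj _ _ hs, inj _ _ ht⟩
  · exact absurd ((inj _ _ hs).trans (inj _ _ ht).symm) hst

variable {k : Type} [Field k] (z : k)

/-- The polynomial matrix. -/
noncomputable def Cm (s t : S) : k[X] :=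
  if s = t then C (-2) else
    if M.M s t = 0 then X ^ (ex s t) else
      C (z ^ (KK M / M.M s t) + (z ^ (KK M / M.M s t))⁻¹)

theorem Cm_symm (s t : S) : Cm M z s t = Cm M z t s := by
  unfold Cm
  have h := M.symmetric s t
  by_cases hst : s = t
  · subst hst; rfl
  · rw [if_neg hst, if_neg (Ne.symm hst), ex_symm t s, M.symmetric t s]

/-- The representation attached to `θ`. -/
noncomputable def LL (hz : IsPrimitiveRoot z (2 * KK M)) (θ : k) : Lin M k where
  K := KK M
  Kpos := KK_pos M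
  dvd := dvd_KK M
  z := z
  hz := hz
  c := fun s t => (Cm M z s t).eval θ
  csymm := fun s t => by rw [Cm_symm]
  cdiag := fun s => by simp [Cm]
  cfin := fun s t hst hm => by
    unfold Cm
    rw [if_neg hst, if_neg hm, eval_C]

/-- The bilinear form as a polynomial. -/
noncomputable def PB (u w : S → k) : k[X] :=
  -∑ s, C (u s) * ∑ t, Cm M z s t * C (w t)

theorem PB_eval (hz : IsPrimitiveRoot z (2 * KK M)) (θ : k) (u w : S → k) :
    (PB M z u w).eval θ = (LL M z hz θ).B u w := by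
  unfold PB Lin.B Lin.lam
  simp only [eval_neg, eval_finsetSum, eval_mul, eval_C]
  rfl

theorem Cm_natDegree (s t : S) : (Cm M z s t).natDegree ≤ 2 ^ (Fintype.card S + 1) := by
  unfold Cm
  split_ifs with h1 h2
  · rw [natDegree_C]; exact Nat.zero_le _
  · exact (natDegree_X_pow_le _).trans (ex_le s t)
  · rw [natDegree_C]; exact Nat.zero_le _

theorem PB_natDegree (u w : S → k) : (PB M z u w).natDegree ≤ 2 ^ (Fintype.card S + 1) := by
  unfold PB
  rw [natDegree_neg]
  refine natDegree_sum_le_of_forall_le _ _ (fun s _ => ?_)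
  refine (natDegree_C_mul_le _ _).trans ?_
  refine natDegree_sum_le_of_forall_le _ _ (fun t _ => ?_)
  exact (natDegree_mul_C_le _ _).trans (Cm_natDegree M z s t)

theorem Cm_coeff (s t a b : S) (hab : M.M a b = 0) :
    (Cm M z s t).coeff (ex a b) =
      if (s = a ∧ t = b) ∨ (s = b ∧ t = a) then 1 else 0 := by
  have hab' : a ≠ b := by
    rintro rfl
    rw [M.diagonal a] at hab
    exact absurd hab (by norm_num)
  have hpos := ex_pos a b
  unfold Cm
  split_ifs with h1 h2 h3 h4 h5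
  · exfalso
    subst h1
    rcases h2 with ⟨h, h'⟩ | ⟨h, h'⟩
    · exact hab' (h.symm.trans h')
    · exact hab' (h'.symm.trans h)
  · rw [coeff_C_of_ne_zero (by omega)]
  · have : ex s t = ex a b := by
      rcases h4 with ⟨h, h'⟩ | ⟨h, h'⟩
      · rw [h, h']
      · rw [h, h', ex_symm]
    rw [this, coeff_X_pow_self]
  · rw [coeff_X_pow, if_neg]
    intro h
    exact h4 (ex_inj s t a b h1 hab' h.symm)
  · exfalso
    rcases h5 with ⟨h, h'⟩ | ⟨h, h'⟩
    · rw [h, h'] at h3; exact h3 hab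
    · rw [h, h'] at h3; exact h3 ((M.symmetric b a).trans hab)
  · rw [coeff_C_of_ne_zero (by omega)]

theorem PB_coeff (u w : S → k) (a b : S) (hab : M.M a b = 0) :
    (PB M z u w).coeff (ex a b) = -(u a * w b + u b * w a) := by
  have hab' : a ≠ b := by
    rintro rfl
    rw [M.diagonal a] at hab
    exact absurd hab (by norm_num)
  unfold PB
  rw [coeff_neg, finsetSum_coeff]
  congr 1
  have h1 : ∀ s : S, (C (u s) * ∑ t, Cm M z s t * C (w t)).coeff (ex a b) =
      ∑ t, u s * w t * (if (s = a ∧ t = b) ∨ (s = b ∧ t = a) then 1 else 0) := by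
    intro s
    rw [coeff_C_mul, finsetSum_coeff, Finset.mul_sum]
    refine Finset.sum_congr rfl (fun t _ => ?_)
    rw [coeff_mul_C, Cm_coeff M z s t a b hab]
    ring
  rw [Finset.sum_congr rfl (fun s _ => h1 s)]
  have h2 : ∀ s t : S, u s * w t * (if (s = a ∧ t = b) ∨ (s = b ∧ t = a) then (1 : k) else 0) =
      (if s = a then (if t = b then u s * w t else 0) else 0) +
      (if s = b then (if t = a then u s * w t else 0) else 0) := by
    intro s t
    by_cases hs : s = a
    · subst hs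
      by_cases ht : t = b
      · subst ht
        simp [hab']
      · simp [ht, hab']
    · by_cases hs' : s = b
      · subst hs'
        by_cases ht : t = a
        · subst ht
          simp [hs]
        · simp [ht, hs]
      · simp [hs, hs']
  simp only [h2, Finset.sum_add_distrib]
  congr 1
  · rw [Finset.sum_eq_single a]
    · simp
    · intro s _ hs; simp [hs]
    · intro h; exact absurd (Finset.mem_univ a) h
  · rw [Finset.sum_eq_single b]
    · simp
    · intro s _ hs; simp [hs]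
    · intro h; exact absurd (Finset.mem_univ b) h

/-- The roots (independent of `θ`). -/
noncomputable def rt (x y : S) (i : ℕ) : S → k :=
  if x = y then Lin.e x else
    (((z ^ (KK M / M.M x y)) ^ (i + 1) - ((z ^ (KK M / M.M x y))⁻¹) ^ (i + 1)) /
      ((z ^ (KK M / M.M x y)) - (z ^ (KK M / M.M x y))⁻¹)) • Lin.e x +
    (((z ^ (KK M / M.M x y)) ^ i - ((z ^ (KK M / M.M x y))⁻¹) ^ i) /
      ((z ^ (KK M / M.M x y)) - (z ^ (KK M / M.M x y))⁻¹)) • Lin.e y

theorem root_LL (hz : IsPrimitiveRoot z (2 * KK M)) (θ : k) (x y : S) (i : ℕ) :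
    (LL M z hz θ).root x y i = rt M z x y i := rfl

theorem rt_mod (hz : z ^ (2 * KK M) = 1) (x y : S) (i : ℕ) :
    rt M z x y (i % (2 * KK M)) = rt M z x y i := by
  have h1 : ∀ g : k, g ^ (2 * KK M) = 1 → g ^ (i % (2 * KK M)) = g ^ i := by
    intro g hg
    exact (pow_eq_pow_mod i hg).symm
  have h2 : (z ^ (KK M / M.M x y)) ^ (2 * KK M) = 1 := by
    rw [← pow_mul, mul_comm, pow_mul, hz, one_pow]
  have h3 : ((z ^ (KK M / M.M x y))⁻¹) ^ (2 * KK M) = 1 := by
    rw [inv_pow, h2, inv_one]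
  unfold rt
  rw [pow_succ, pow_succ, pow_succ _ i, pow_succ _ i, h1 _ h2, h1 _ h3]

theorem rt_supp (x y : S) (i : ℕ) (a : S) (h : rt M z x y i a ≠ 0) : a = x ∨ a = y := by
  by_contra hn
  push Not at hn
  apply h
  unfold rt Lin.e
  split_ifs with hxy
  · rw [Pi.single_eq_of_ne hn.1]
  · rw [Pi.add_apply, Pi.smul_apply, Pi.smul_apply, Pi.single_eq_of_ne hn.1,
      Pi.single_eq_of_ne hn.2, smul_zero, smul_zero, add_zero]

/-- The coefficient is non-zero. -/
theorem PB_coeff_ne (x y x' y' : S) (i j : ℕ) (hxy : M.M x y ≠ 0) (a b : S)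
    (ha : rt M z x y i a ≠ 0) (hb : rt M z x' y' j b ≠ 0) (hab : M.M a b = 0) :
    (PB M z (rt M z x y i) (rt M z x' y' j)).coeff (ex a b) ≠ 0 := by
  have hab' : a ≠ b := by
    rintro rfl
    rw [M.diagonal a] at hab
    exact absurd hab (by norm_num)
  rw [PB_coeff M z _ _ a b hab]
  have hub : rt M z x y i b = 0 := by
    by_contra hb'
    rcases rt_supp M z x y i a ha with h1 | h1 <;> rcases rt_supp M z x y i b hb' with h2 | h2
    · exact hab' (h1.trans h2.symm)
    · rw [h1, h2] at hab; exact hxy hab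
    · rw [h1, h2] at hab; exact hxy ((M.symmetric x y).trans hab)
    · exact hab' (h1.trans h2.symm)
  rw [hub, zero_mul, add_zero]
  exact neg_ne_zero.2 (mul_ne_zero ha hb)

/-- The polynomial to be avoided. -/
noncomputable def QQ (u w : S → k) (q : k) : k[X] := (PB M z u w) ^ 2 - C (2 + q + q⁻¹)

theorem QQ_ne (u w : S → k) (q : k) (n : ℕ) (hn : 0 < n) (h : (PB M z u w).coeff n ≠ 0) :
    QQ M z u w q ≠ 0 := by
  intro h0
  unfold QQ at h0
  have h1 : (PB M z u w) ^ 2 = C (2 + q + q⁻¹) := sub_eq_zero.1 h0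
  have h2 := congrArg natDegree h1
  rw [natDegree_pow, natDegree_C] at h2
  have h3 : n ≤ (PB M z u w).natDegree := le_natDegree_of_ne_zero h
  omega

theorem QQ_natDegree (u w : S → k) (q : k) :
    (QQ M z u w q).natDegree ≤ 2 * 2 ^ (Fintype.card S + 1) := by
  unfold QQ
  refine (natDegree_sub_le _ _).trans ?_
  rw [natDegree_C, natDegree_pow]
  have := PB_natDegree M z u w
  simp only [Nat.zero_le, sup_of_le_left]
  omega

end

/-- Index type of the polynomials. -/
abbrev Idx (S : Type) (K : ℕ) : Type :=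
  (S × S × S × S) × (Fin (2 * K) × Fin (2 * K) × Fin K)

section

variable {S : Type} [Fintype S] [DecidableEq S] (M : CoxeterMatrix S) {k : Type} [Field k] (z : k)

open Classical in
/-- The polynomial attached to an index. -/
noncomputable def RR (ι : Idx S (KK M)) : k[X] :=
  if QQ M z (rt M z ι.1.1 ι.1.2.1 ι.2.1) (rt M z ι.1.2.2.1 ι.1.2.2.2 ι.2.2.1)
      ((z ^ 2) ^ (ι.2.2.2 : ℕ)) = 0 then 1 else
    QQ M z (rt M z ι.1.1 ι.1.2.1 ι.2.1) (rt M z ι.1.2.2.1 ι.1.2.2.2 ι.2.2.1)
      ((z ^ 2) ^ (ι.2.2.2 : ℕ))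

theorem RR_eq (x y x' y' : S) (i j : Fin (2 * KK M)) (l : Fin (KK M)) (u w : S → k) (q : k)
    (h1 : rt M z x y i = u) (h2 : rt M z x' y' j = w) (h3 : (z ^ 2) ^ (l : ℕ) = q)
    (h : QQ M z u w q ≠ 0) :
    RR M z ((x, y, x', y'), (i, j, l)) = QQ M z u w q := by
  subst h1 h2 h3
  exact if_neg h

theorem RR_ne (ι : Idx S (KK M)) : RR M z ι ≠ 0 := by
  unfold RR
  split_ifs with h
  · exact one_ne_zero
  · exact h

theorem RR_natDegree (ι : Idx S (KK M)) :
    (RR M z ι).natDegree ≤ 2 * 2 ^ (Fintype.card S + 1) := by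
  unfold RR
  split_ifs with h
  · rw [natDegree_one]; exact Nat.zero_le _
  · exact QQ_natDegree M z _ _ _

/-- The degree bound. -/
def NN : ℕ := Fintype.card (Idx S (KK M)) * (2 * 2 ^ (Fintype.card S + 1))

theorem exists_theta (h : NN M < Nat.card k) [Finite k] :
    ∃ θ : k, ∀ ι : Idx S (KK M), (RR M z ι).eval θ ≠ 0 := by
  classical
  have h1 : (∏ ι : Idx S (KK M), RR M z ι) ≠ 0 :=
    Finset.prod_ne_zero_iff.2 (fun ι _ => RR_ne M z ι)
  have h2 : (∏ ι : Idx S (KK M), RR M z ι).natDegree ≤ NN M := by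
    refine (natDegree_prod_le _ _).trans ?_
    refine (Finset.sum_le_card_nsmul _ _ _ (fun ι _ => RR_natDegree M z ι)).trans ?_
    rw [smul_eq_mul, Finset.card_univ]
    exact le_refl _
  have h3 : ((∏ ι : Idx S (KK M), RR M z ι).natDegree : Cardinal) < Cardinal.mk k := by
    rw [← Nat.cast_card]
    exact_mod_cast lt_of_le_of_lt h2 h
  obtain ⟨θ, hθ⟩ := exists_eval_ne_zero_of_natDegree_lt_card _ h1 h3
  refine ⟨θ, fun ι h0 => hθ ?_⟩
  rw [eval_prod]
  exact Finset.prod_eq_zero (Finset.mem_univ ι) h0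

theorem QQ_root (hz : IsPrimitiveRoot z (2 * KK M)) (θ : k)
    (hθ : ∀ ι : Idx S (KK M), (RR M z ι).eval θ ≠ 0) (x y x' y' : S) (i j : ℕ)
    (hxy : M.M x y ≠ 0) (a b : S) (ha : rt M z x y i a ≠ 0) (hb : rt M z x' y' j b ≠ 0)
    (hab : M.M a b = 0) (q : k) (hq : q ^ KK M = 1) :
    (QQ M z (rt M z x y i) (rt M z x' y' j) q).eval θ ≠ 0 := by
  have hK := KK_pos M
  have hK2 : 0 < 2 * KK M := by omega
  have hz2 : IsPrimitiveRoot (z ^ 2) (KK M) := hz.pow hK2 rfl
  have : NeZero (KK M) := ⟨hK.ne'⟩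
  obtain ⟨l, hl, hlq⟩ := hz2.eq_pow_of_pow_eq_one hq
  have h2 : QQ M z (rt M z x y i) (rt M z x' y' j) q ≠ 0 :=
    QQ_ne M z _ _ q (ex a b) (ex_pos a b) (PB_coeff_ne M z x y x' y' i j hxy a b ha hb hab)
  have h3 := RR_eq M z x y x' y' ⟨i % (2 * KK M), Nat.mod_lt _ hK2⟩
    ⟨j % (2 * KK M), Nat.mod_lt _ hK2⟩ ⟨l, hl⟩ (rt M z x y i) (rt M z x' y' j) q
    (rt_mod M z hz.pow_eq_one x y i) (rt_mod M z hz.pow_eq_one x' y' j) hlq h2
  rw [← h3]
  exact hθ _

theorem gen_of_theta (hz : IsPrimitiveRoot z (2 * KK M)) (θ : k)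
    (hθ : ∀ ι : Idx S (KK M), (RR M z ι).eval θ ≠ 0) : (LL M z hz θ).Gen := by
  rintro x y x' y' i j hxy hxy' ⟨a, b, ha, hb, hab⟩ q hq hB
  have h1 := QQ_root M z hz θ hθ x y x' y' i j hxy a b ha hb hab q hq
  apply h1
  have hB' : (LL M z hz θ).B (rt M z x y i) (rt M z x' y' j) ^ 2 = 2 + q + q⁻¹ := hB
  unfold QQ
  rw [eval_sub, eval_pow, eval_C, PB_eval M z hz, hB', sub_self]

end

theorem gen : GenStmt := by
  intro S _ _ M
  have hK := KK_pos M
  obtain ⟨p, hp, hpn, hmod⟩ := Nat.exists_prime_gt_modEq_one (k := 2 * KK M) (NN M) (by omega)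
  have : Fact p.Prime := ⟨hp⟩
  have hdvd : 2 * KK M ∣ p - 1 := (Nat.modEq_iff_dvd' hp.one_lt.le).1 hmod.symm
  obtain ⟨d, hd⟩ := hdvd
  have hp1 : 0 < p - 1 := by have := hp.one_lt; omega
  obtain ⟨g, hg⟩ := IsCyclic.exists_ofOrder_eq_natCard (α := (ZMod p)ˣ)
  rw [Nat.card_eq_fintype_card, ZMod.card_units_eq_totient, Nat.totient_prime hp] at hg
  have hg1 : IsPrimitiveRoot g (p - 1) := by
    rw [← hg]; exact IsPrimitiveRoot.orderOf g
  have hg2 : IsPrimitiveRoot (g ^ d) (2 * KK M) := hg1.pow hp1 (by rw [hd, mul_comm])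
  have hz : IsPrimitiveRoot (((g ^ d : (ZMod p)ˣ) : ZMod p)) (2 * KK M) :=
    IsPrimitiveRoot.coe_units_iff.2 hg2
  obtain ⟨θ, hθ⟩ := exists_theta M (((g ^ d : (ZMod p)ˣ) : ZMod p)) (by
    rw [Nat.card_zmod]; exact hpn)
  exact ⟨ZMod p, inferInstance, inferInstance, LL M _ hz θ, gen_of_theta M _ hz θ hθ⟩

end H4
end Art
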