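import Pool.Agent.Helper44_Art.Stmt2

set_option autoImplicit false
set_option linter.unusedSectionVars false

/-!
# Module IND2: the induction of Theorem U
-/

namespace Art
namespace H4

theorem H1_res {S : Type} (M : CoxeterMatrix S) (T : Set S) (h : H1 M) : H1 (res M T) := by
  intro s x y z h1 h2 h3 h4 h5 h6 g1 g2 g3 g4 g5 g6
  exact h s.1 x.1 y.1 z.1 (fun e => h1 (Subtype.ext e)) (fun e => h2 (Subtype.ext e))
    (fun e => h3 (Subtype.ext e)) (fun e => h4 (Subtype.ext e)) (fun e => h5 (Subtype.ext e))
    (fun e => h6 (Subtype.ext e)) g1 g2 g3 g4 g5 g6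

theorem H2_res {S : Type} (M : CoxeterMatrix S) (T : Set S) (h : H2 M) : H2 (res M T) := by
  intro x y z h1 h2 h3 g1 g2 g3 s t hst hm
  exact h x.1 y.1 z.1 (fun e => h1 (Subtype.ext e)) (fun e => h2 (Subtype.ext e))
    (fun e => h3 (Subtype.ext e)) g1 g2 g3 s.1 t.1 (fun e => hst (Subtype.ext e)) hm

theorem H3_res {S : Type} (M : CoxeterMatrix S) (T : Set S) (h : H3 M) : H3 (res M T) := by
  intro U _ N j hj hN hc hf
  exact h U N (fun u => (j u).1) (fun a b e => hj (Subtype.ext e)) (fun a b => hN a b) hc hf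

theorem ind2_aux (am2 : Am2Stmt) (prd : ProdStmt) (base : Base1Stmt) (dih : DihStmt) :
    ∀ n : ℕ, ∀ (S : Type) [Fintype S], Fintype.card S = n → ∀ M : CoxeterMatrix S,
      H1 M → H2 M → H3 M → RF (Gp M) := by
  intro n
  induction n using Nat.strong_induction_on with
  | _ n ih =>
  intro S _ hcard M h1 h2 h3
  classical
  have sub : ∀ T : Set S, (∃ x, x ∉ T) → RF (Gp (res M T)) := by
    rintro T ⟨x, hx⟩
    have : Fintype T := Fintype.ofFinite T
    have hlt : Fintype.card T < n := by
      rw [← hcard]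
      exact Fintype.card_lt_of_injective_of_notMem (fun u : T => u.1) Subtype.val_injective
        (b := x) (by simpa using hx)
    exact ih _ hlt T rfl (res M T) (H1_res M T h1) (H2_res M T h2) (H3_res M T h3)
  by_cases hinf : ∃ s t, M.M s t = 0
  · obtain ⟨s, t, hst⟩ := hinf
    refine am2 M {x | M.M s x ≠ 0} {x | x ≠ s} ?_ ?_ ?_ ?_ (sub _ ⟨t, ?_⟩) (sub _ ⟨s, ?_⟩)
    · ext x
      simp only [Set.mem_union, Set.mem_ofPred_eq, Set.mem_univ, iff_true]
      by_cases hx : x = s
      · left
        rw [hx, M.diagonal s]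
        norm_num
      · right; exact hx
    · intro x _ hx y _ hy
      simp only [Set.mem_ofPred_eq, not_not] at hx hy
      rw [hx]; exact hy
    · rintro x ⟨hx, hx'⟩ y ⟨hy, hy'⟩ z ⟨hz, hz'⟩ hxy hxz hyz gxy gxz gyz
      simp only [Set.mem_ofPred_eq] at hx hx' hy hy' hz hz'
      have gyx : M.M y x ≠ 0 := by rw [M.symmetric y x]; exact gxy
      rcases h1 s x y z hx'.symm hy'.symm hz'.symm hxy hxz hyz hx hy hz gxy gxz gyz with h | h
      · exact Or.inl h
      · rcases h1 s y x z hy'.symm hx'.symm hz'.symm hxy.symm hyz hxz hy hx hz gyx gyz gxz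
          with h' | h'
        · left; rw [M.symmetric x y]; exact h'
        · exact Or.inr ⟨h, h'⟩
    · rintro x ⟨hx, hx'⟩ y ⟨hy, hy'⟩ hxy gxy s' t' hst' gst'
      simp only [Set.mem_ofPred_eq] at hx hx' hy hy'
      exact h2 x y s hxy hx' hy' gxy (by rw [M.symmetric x s]; exact hx)
        (by rw [M.symmetric y s]; exact hy) s' t' hst' gst'
    · simp only [Set.mem_ofPred_eq, not_not]; exact hst
    · simp
  · push Not at hinf
    rcases Nat.lt_or_ge 1 n with hn | hn
    swap
    · exact base M (Fintype.card_le_one_iff_subsingleton.1 (by omega))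
    rcases Nat.lt_or_ge 2 n with hn2 | hn2
    swap
    · have h22 : (Finset.univ : Finset S).card = 2 := by rw [Finset.card_univ]; omega
      obtain ⟨a, b, hab, huniv⟩ := Finset.card_eq_two.1 h22
      refine dih M a b hab (fun x => ?_) (hinf a b)
      have hx := Finset.mem_univ x
      rw [huniv, Finset.mem_insert, Finset.mem_singleton] at hx
      exact hx
    rcases Nat.lt_or_ge 3 n with hn3 | hn3
    swap
    · exact h3 S M id Function.injective_id (fun a b => rfl) (by omega) hinf
    have other : ∀ x y v : S, ∃ s, s ≠ x ∧ s ≠ y ∧ s ≠ v := by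
      intro x y v
      by_contra hcon
      push Not at hcon
      have hsub : (Finset.univ : Finset S) ⊆ {x, y, v} := by
        intro s _
        rw [Finset.mem_insert, Finset.mem_insert, Finset.mem_singleton]
        by_cases hsx : s = x
        · exact Or.inl hsx
        · by_cases hsy : s = y
          · exact Or.inr (Or.inl hsy)
          · exact Or.inr (Or.inr (hcon s hsx hsy))
      have h4 := Finset.card_le_card hsub
      rw [Finset.card_univ] at h4
      have h5 := Finset.card_le_three (a := x) (b := y) (c := v)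
      omega
    by_cases hlab : ∃ x y, x ≠ y ∧ M.M x y ≠ 2
    · obtain ⟨x, y, hxy, hm⟩ := hlab
      have hm' : M.M y x ≠ 2 := by rw [M.symmetric y x]; exact hm
      refine prd M {x, y} {x, y}ᶜ (Set.union_compl_self _) (Set.inter_compl_self _) ?_
        (sub _ ?_) (sub _ ⟨x, ?_⟩)
      · intro u hu v hv
        simp only [Set.mem_compl_iff, Set.mem_insert_iff, Set.mem_singleton_iff, not_or] at hu hv
        obtain ⟨s, hsx, hsy, hsv⟩ := other x y v
        rcases hu with rfl | rfl
        · rcases h1 s u y v hsx hsy hsv hxy (Ne.symm hv.1) (Ne.symm hv.2) (hinf _ _) (hinf _ _)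
            (hinf _ _) (hinf _ _) (hinf _ _) (hinf _ _) with h | h
          · exact absurd h hm
          · exact h
        · rcases h1 s u x v hsy hsx hsv hxy.symm (Ne.symm hv.2) (Ne.symm hv.1) (hinf _ _)
            (hinf _ _) (hinf _ _) (hinf _ _) (hinf _ _) (hinf _ _) with h | h
          · exact absurd h hm'
          · exact h
      · obtain ⟨s, hsx, hsy, _⟩ := other x y x
        exact ⟨s, by simp [hsx, hsy]⟩
      · simp
    · push Not at hlab
      have hpos : 0 < Fintype.card S := by omega
      obtain ⟨x⟩ := Fintype.card_pos_iff.1 hpos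
      refine prd M {x} {x}ᶜ (Set.union_compl_self _) (Set.inter_compl_self _) ?_
        (sub _ ?_) (sub _ ⟨x, ?_⟩)
      · intro u hu v hv
        simp only [Set.mem_compl_iff, Set.mem_singleton_iff] at hu hv
        rw [hu]
        exact hlab x v (Ne.symm hv)
      · obtain ⟨s, hsx, _, _⟩ := other x x x
        exact ⟨s, by simp [hsx]⟩
      · simp

theorem ind2 : Am2Stmt → ProdStmt → Base1Stmt → DihStmt → UStmt := by
  intro am2 prd base dih S _ M h1 h2 h3
  exact ind2_aux am2 prd base dih _ S rfl M h1 h2 h3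

end H4
end Art
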